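import Pool.Agent.Helper92.AH.Defs

set_option autoImplicit false

/-!
# Module COFIN: the projection of a constructible set to a line is finite or cofinite
-/

namespace Pool.Agent.Helper92.AH

/-- the prime ideal of a point -/
noncomputable def cofin_pt {K : Type} [Field K] {N : ℕ} (x : Fin N → K) :
    PrimeSpectrum (MvPolynomial (Fin N) K) :=
  ⟨RingHom.ker (MvPolynomial.aeval x : MvPolynomial (Fin N) K →ₐ[K] K).toRingHom,
    RingHom.ker_isPrime _⟩

theorem cofin_mem_pt {K : Type} [Field K] {N : ℕ} (x : Fin N → K) (p : MvPolynomial (Fin N) K) :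
    p ∈ (cofin_pt x).asIdeal ↔ MvPolynomial.aeval x p = 0 := Iff.rfl

/-- the prime ideal of a point of the line -/
noncomputable def cofin_p1 {K : Type} [Field K] (t : K) : PrimeSpectrum (Polynomial K) :=
  ⟨RingHom.ker (Polynomial.evalRingHom t), RingHom.ker_isPrime _⟩

theorem cofin_mem_p1 {K : Type} [Field K] (t : K) (p : Polynomial K) :
    p ∈ (cofin_p1 t).asIdeal ↔ p.eval t = 0 := Iff.rfl

/-- the ring homomorphism belonging to the projection -/
noncomputable def cofin_phi (K : Type) [Field K] {N : ℕ} (i : Fin N) :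
    Polynomial K →+* MvPolynomial (Fin N) K :=
  (Polynomial.aeval (MvPolynomial.X i : MvPolynomial (Fin N) K)).toRingHom

theorem cofin_phi_aeval {K : Type} [Field K] {N : ℕ} (i : Fin N) (x : Fin N → K)
    (p : Polynomial K) : MvPolynomial.aeval x (cofin_phi K i p) = p.eval (x i) := by
  change MvPolynomial.aeval x (Polynomial.aeval (MvPolynomial.X i) p) = _
  rw [← Polynomial.aeval_algHom_apply, MvPolynomial.aeval_X]
  rfl

theorem cofin_comap {K : Type} [Field K] {N : ℕ} (i : Fin N) (x : Fin N → K) :
    PrimeSpectrum.comap (cofin_phi K i) (cofin_pt x) = cofin_p1 (x i) := by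
  apply PrimeSpectrum.ext
  ext p
  rw [PrimeSpectrum.comap_asIdeal, Ideal.mem_comap, cofin_mem_pt, cofin_mem_p1, cofin_phi_aeval]

/-- the constructible subset of the spectrum -/
def cofin_S {K : Type} [Field K] {N : ℕ} {ι : Type} (P : ι → MvPolynomial (Fin N) K)
    (T : Set (Set ι)) : Set (PrimeSpectrum (MvPolynomial (Fin N) K)) :=
  {q | {j | P j ∈ q.asIdeal} ∈ T}

theorem cofin_S_constr {K : Type} [Field K] {N : ℕ} {ι : Type} [Finite ι]
    (P : ι → MvPolynomial (Fin N) K) (T : Set (Set ι)) :
    Topology.IsConstructible (cofin_S P T) := by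
  have h0 : ∀ j : ι, Topology.IsConstructible
      {q : PrimeSpectrum (MvPolynomial (Fin N) K) | P j ∉ q.asIdeal} := fun j =>
    PrimeSpectrum.isConstructible_basicOpen (f := P j)
  have h1 : ∀ j : ι, Topology.IsConstructible
      {q : PrimeSpectrum (MvPolynomial (Fin N) K) | P j ∈ q.asIdeal} := by
    intro j
    rw [← Topology.isConstructible_compl]
    exact h0 j
  have h2 : ∀ τ : Set ι, Topology.IsConstructible
      {q : PrimeSpectrum (MvPolynomial (Fin N) K) | {j | P j ∈ q.asIdeal} = τ} := by
    intro τ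
    have e : {q : PrimeSpectrum (MvPolynomial (Fin N) K) | {j | P j ∈ q.asIdeal} = τ}
        = ⋂ j : ι, {q : PrimeSpectrum (MvPolynomial (Fin N) K) | P j ∈ q.asIdeal ↔ j ∈ τ} := by
      ext q
      simp only [Set.mem_ofPred_eq, Set.mem_iInter, Set.ext_iff]
    rw [e]
    refine Topology.IsConstructible.iInter fun j => ?_
    by_cases hj : j ∈ τ
    · simp only [hj, iff_true]
      exact h1 j
    · simp only [hj, iff_false]
      exact h0 j
  have e : cofin_S P T = ⋃ τ ∈ T,
      {q : PrimeSpectrum (MvPolynomial (Fin N) K) | {j | P j ∈ q.asIdeal} = τ} := by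
    ext q
    simp only [cofin_S, Set.mem_ofPred_eq, Set.mem_iUnion, exists_prop, exists_eq_right']
  rw [e]
  exact Topology.IsConstructible.biUnion (Set.toFinite T) fun τ _ => h2 τ

/-- the Nullstellensatz for constructible sets -/
theorem cofin_null {K : Type} [Field K] [IsAlgClosed K] {N : ℕ} {ι : Type} [Finite ι]
    (P : ι → MvPolynomial (Fin N) K) (T : Set (Set ι)) (i : Fin N) (t : K) :
    t ∈ (fun x : Fin N → K => x i) '' Pts P T K ↔
      cofin_p1 t ∈ PrimeSpectrum.comap (cofin_phi K i) '' cofin_S P T := by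
  classical
  have := Fintype.ofFinite ι
  constructor
  · rintro ⟨x, hx, rfl⟩
    exact ⟨cofin_pt x, hx, cofin_comap i x⟩
  · rintro ⟨q, hq, hqt⟩
    have hprime := q.isPrime
    set g : MvPolynomial (Fin N) K :=
      ∏ j ∈ (Finset.univ.filter fun j : ι => P j ∉ q.asIdeal), P j with hg
    have hgq : g ∉ q.asIdeal := by
      intro h
      rw [hg, hprime.prod_mem_iff] at h
      obtain ⟨j, hj, hj'⟩ := h
      exact (Finset.mem_filter.1 hj).2 hj'
    have hv : MvPolynomial.vanishingIdeal K (MvPolynomial.zeroLocus K q.asIdeal) = q.asIdeal :=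
      MvPolynomial.IsPrime.vanishingIdeal_zeroLocus (K := K) q.asIdeal
    have hx : ∃ x ∈ MvPolynomial.zeroLocus K q.asIdeal, MvPolynomial.aeval x g ≠ 0 := by
      by_contra hcon
      push Not at hcon
      apply hgq
      rw [← hv]
      exact fun x hx => hcon x hx
    obtain ⟨x, hx1, hx2⟩ := hx
    refine ⟨x, ?_, ?_⟩
    · have e : {j | MvPolynomial.aeval x (P j) = 0} = {j | P j ∈ q.asIdeal} := by
        ext j
        simp only [Set.mem_ofPred_eq]
        constructor
        · intro h
          by_contra hj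
          apply hx2
          rw [hg, map_prod]
          exact Finset.prod_eq_zero (Finset.mem_filter.2 ⟨Finset.mem_univ j, hj⟩) h
        · intro h
          exact hx1 _ h
      change {j | MvPolynomial.aeval x (P j) = 0} ∈ T
      rw [e]
      exact hq
    · have h1 : (Polynomial.X - Polynomial.C t) ∈ (cofin_p1 t).asIdeal := by
        rw [cofin_mem_p1]; simp
      rw [← hqt, PrimeSpectrum.comap_asIdeal, Ideal.mem_comap] at h1
      have h2 := hx1 _ h1
      rw [cofin_phi_aeval] at h2
      simpa [sub_eq_zero] using h2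

theorem st_COFIN : ST_COFIN := by
  classical
  intro K _ _ N ι _ P T i hinf
  have hfp : (cofin_phi K i).FinitePresentation := by
    rw [← RingHom.FinitePresentation.of_finiteType]
    refine RingHom.FiniteType.of_comp_finiteType (f := Polynomial.C) ?_
    have : (cofin_phi K i).comp Polynomial.C = algebraMap K (MvPolynomial (Fin N) K) := by
      ext a
      change MvPolynomial.coeff _ (Polynomial.aeval (MvPolynomial.X i) (Polynomial.C a)) = _
      rw [Polynomial.aeval_C]
    rw [this]
    exact (RingHom.finiteType_algebraMap (A := K) (B := MvPolynomial (Fin N) K)).2 inferInstance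
  have hc := PrimeSpectrum.isConstructible_comap_image hfp (cofin_S_constr P T)
  obtain ⟨D, hD⟩ := PrimeSpectrum.exists_constructibleSetData_iff.2 hc
  have key : ∀ t : K, t ∈ (fun x : Fin N → K => x i) '' Pts P T K ↔
      ∃ C ∈ D, (∀ j, (C.g j).eval t = 0) ∧ C.f.eval t ≠ 0 := by
    intro t
    rw [cofin_null, ← hD]
    simp only [PrimeSpectrum.ConstructibleSetData.toSet, PrimeSpectrum.BasicConstructibleSetData.toSet,
      Set.mem_iUnion, exists_prop, Set.mem_sdiff, PrimeSpectrum.mem_zeroLocus,
      Set.range_subset_iff, Set.singleton_subset_iff, SetLike.mem_coe, cofin_mem_p1]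
  have hroots : ∀ p : Polynomial K, p ≠ 0 → {t : K | p.eval t = 0}.Finite := by
    intro p hp
    refine (p.roots.toFinset.finite_toSet).subset ?_
    intro t ht
    simp only [Finset.mem_coe, Multiset.mem_toFinset, Polynomial.mem_roots', Polynomial.IsRoot.def]
    exact ⟨hp, ht⟩
  by_cases hex : ∃ C ∈ D, (∀ j, C.g j = 0) ∧ C.f ≠ 0
  · obtain ⟨C, hC, hg, hf⟩ := hex
    refine (hroots C.f hf).subset ?_
    intro t ht
    by_contra hne
    apply ht
    rw [key]
    refine ⟨C, hC, fun j => ?_, hne⟩
    rw [hg j]; simp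
  · exfalso
    apply hinf
    push Not at hex
    have hsub : (fun x : Fin N → K => x i) '' Pts P T K ⊆
        ⋃ C ∈ D, {t : K | (∀ j, (C.g j).eval t = 0) ∧ C.f.eval t ≠ 0} := by
      intro t ht
      rw [key] at ht
      obtain ⟨C, hC, h⟩ := ht
      exact Set.mem_biUnion hC h
    refine Set.Finite.subset ?_ hsub
    refine Set.Finite.biUnion D.finite_toSet fun C hC => ?_
    by_cases hg : ∀ j, C.g j = 0
    · have := hex C hC hg
      have e : {t : K | (∀ j, (C.g j).eval t = 0) ∧ C.f.eval t ≠ 0} = ∅ := by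
        ext t
        simp [this]
      rw [e]
      exact Set.finite_empty
    · push Not at hg
      obtain ⟨j, hj⟩ := hg
      exact (hroots (C.g j) hj).subset fun t ht => ht.1 j

end Pool.Agent.Helper92.AH
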