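import Pool.Agent.Helper92.AH.Defs

set_option autoImplicit false

/-!
# Module COUNT: the number of points with `f ≠ 0` modulo `p^(t+1)` is a trace
-/

namespace Pool.Agent.Helper92.AH

theorem count_Bx (q d : ℕ) : ∀ t, Bx q d t = q ^ t * d
  | 0 => by simp [Bx]
  | t + 1 => by
    rw [Bx, count_Bx q d t, pow_succ]
    ring

theorem count_deg_tl (p : ℕ) [Fact p.Prime] {F : Type} [Field F] {N : ℕ}
    (f : MvPolynomial (Fin N) F) (d : ℕ) (j : Fin N) (h : MvPolynomial.degreeOf j f ≤ d) :
    MvPolynomial.degreeOf j (tl p f) ≤ d := by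
  classical
  rw [MvPolynomial.degreeOf_le_iff] at h ⊢
  intro w hw
  apply h w
  unfold tl at hw
  have h1 := MvPolynomial.support_sum hw
  rw [Finset.mem_biUnion] at h1
  obtain ⟨v, hv, hwv⟩ := h1
  have h2 := MvPolynomial.support_monomial_subset hwv
  rw [Finset.mem_singleton] at h2
  rw [h2]
  exact hv

theorem count_deg_pow {R : Type} [CommRing R] {N : ℕ} (g : MvPolynomial (Fin N) R) (j : Fin N)
    (d m : ℕ) (h : MvPolynomial.degreeOf j g ≤ d) : MvPolynomial.degreeOf j (g ^ m) ≤ m * d :=
  (MvPolynomial.degreeOf_pow_le j g m).trans (Nat.mul_le_mul_left m h)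

theorem st_COUNT (hI : ST_IND) (hB : ST_BOXSUM) (hT : ST_TRACE) : ST_COUNT := by
  classical
  intro p _ F E _ _ _ _ _ _ N f d t hdeg hn
  have : Fintype E := Fintype.ofFinite E
  have : CharP E p := charP_of_injective_algebraMap (algebraMap F E).injective p
  set q := Nat.card F with hq
  set n := Module.finrank F E with hnn
  have hn0 : 0 < n := by omega
  have hq1 : 1 ≤ q := by
    rw [hq]; exact Nat.one_le_iff_ne_zero.2 Nat.card_pos.ne'
  have hcard : Fintype.card E = q ^ n := by
    rw [← Nat.card_eq_fintype_card, hq, hnn]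
    exact Module.natCard_eq_pow_finrank
  set G := tl p f ^ ((q - 1) * q ^ t) with hG
  have hGd : ∀ j, MvPolynomial.degreeOf j G ≤ (q - 1) * Bx q d t := by
    intro j
    rw [count_Bx, ← mul_assoc]
    exact count_deg_pow _ j d _ (count_deg_tl p f d j (hdeg j))
  obtain ⟨h1, h2⟩ := hT (WittVector p F) N q (Bx q d t) G hq1 hGd n hn0
  have hpq : p ∣ q := by
    have := Fintype.ofFinite F
    rw [hq, Nat.card_eq_fintype_card]
    obtain ⟨a, ha, hcF⟩ := FiniteField.card F p
    rw [hcF]
    exact dvd_pow_self p a.pos.ne'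
  have hpE : p ^ (t + 1) ∣ Fintype.card E := by
    rw [hcard]
    exact (pow_dvd_pow p hn).trans (pow_dvd_pow_of_dvd hpq n)
  have h3 := hB p F E N (Bx q d t) (t + 1) (HH q n G) hpE (by rw [hcard]; exact h1)
  rw [hcard] at h3
  have h4 : (p : WittVector p E) ^ (t + 1) ∣ (∑ x : Fin N → E, ev p x (HH q n G)) -
      ∑ x : Fin N → E, (if MvPolynomial.aeval x f = 0 then (0 : WittVector p E) else 1) := by
    rw [← Finset.sum_sub_distrib]
    exact Finset.dvd_sum fun x _ => hI p F E N f x t
  have h5 : ∑ x : Fin N → E, (if MvPolynomial.aeval x f = 0 then (0 : WittVector p E) else 1)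
      = ((Nat.card {x : Fin N → E // MvPolynomial.aeval x f ≠ 0} : ℕ) : WittVector p E) := by
    rw [Nat.card_eq_fintype_card, Fintype.card_subtype, Finset.card_filter]
    push_cast
    refine Finset.sum_congr rfl fun x _ => ?_
    by_cases hx : MvPolynomial.aeval x f = 0
    · simp [hx]
    · simp [hx]
  rw [h5] at h4
  rw [h2, map_sum]
  have h6 := dvd_sub h3 h4
  have e : ∀ A B C : WittVector p E, A - B - (A - C) = C - B := fun A B C => by ring
  rw [e] at h6
  exact h6

end Pool.Agent.Helper92.AH
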